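import Pool.Agent.Q188.SB.Ex

/-!
# Final forms
-/

set_option autoImplicit false

namespace Pool.Agent.Q188.SB

open MeasureTheory Set Filter Topology
open scoped ENNReal InnerProductSpace
open Pool.Agent.W695.KH

variable {κ : Type} [Fintype κ]

/-- the uniform probability measure -/
noncomputable def un (K : Set (Eu κ)) : Measure (Eu κ) := (volume K)⁻¹ • volume.restrict K

/-- boundary measure -/
noncomputable def bdr (μ : Measure (Eu κ)) (A : Set (Eu κ)) : ℝ≥0∞ :=
  Filter.liminf (fun ε : ℝ => (μ (Metric.thickening ε A) - μ A) / ENNReal.ofReal ε)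
    (nhdsWithin 0 (Set.Ioi 0))

lemma un_prob (K : Set (Eu κ)) (hK : IsCompact K) (hpos : 0 < volume K) :
    IsProbabilityMeasure (un K) := by
  refine ⟨?_⟩
  unfold un
  rw [Measure.smul_apply, Measure.restrict_apply_univ, smul_eq_mul,
    ENNReal.inv_mul_cancel hpos.ne' hK.measure_lt_top.ne]

lemma int_un (K : Set (Eu κ)) (g : Eu κ → ℝ) : ∫ x, g x ∂(un K) = EV K g := by
  unfold un EV
  rw [integral_smul_measure, ENNReal.toReal_inv, smul_eq_mul]
  ring

lemma memLp_un (K : Set (Eu κ)) (hK : IsCompact K) (hpos : 0 < volume K) (f : Eu κ → ℝ)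
    (hf : Continuous f) : MemLp f 2 (un K) := by
  have := un_prob K hK hpos
  obtain ⟨B, hB⟩ := hK.exists_bound_of_continuousOn hf.continuousOn
  refine MemLp.of_bound hf.aestronglyMeasurable B ?_
  have h1 : ∀ᵐ x ∂(un K), x ∈ K := by
    unfold un
    refine Measure.ae_smul_measure ?_ _
    exact ae_restrict_mem hK.measurableSet
  filter_upwards [h1] with x hx
  exact hB x hx

lemma var_un (K : Set (Eu κ)) (hK : IsCompact K) (hpos : 0 < volume K) (f : Eu κ → ℝ)
    (hf : Continuous f) : ProbabilityTheory.variance f (un K) = VV K f := by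
  have := un_prob K hK hpos
  rw [ProbabilityTheory.variance_eq_sub (memLp_un K hK hpos f hf)]
  unfold VV
  rw [← int_un, ← int_un]
  rfl

variable {K : Set (Eu κ)} {h : Eu κ → ℝ} {c L v : ℝ}

/-- the three estimates -/
theorem Bd.gap [Nonempty κ] (H : Bd K h c L v) :
    (∀ f : Eu κ → ℝ, ContDiff ℝ 1 f → (∀ x, ‖fderiv ℝ f x‖ ≤ 1) →
      ProbabilityTheory.variance f (un K) ≤ 4 * L * v / (c * Fintype.card κ)) ∧
    (∀ f : Eu κ → ℝ, ContDiff ℝ 1 f → (∀ x, |f x| ≤ 1) →
      ProbabilityTheory.variance f (un K) ^ 2 ≤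
        8 * (4 * L * v / (c * Fintype.card κ)) * ∫ x, ‖fderiv ℝ f x‖ ^ 2 ∂(un K)) ∧
    (∀ S : Set (Eu κ), un K S = 1 / 2 →
      ENNReal.ofReal (1 / (240 * Real.sqrt (4 * L * v / (c * Fintype.card κ)))) ≤ bdr (un K) S) := by
  have hn : (0:ℝ) < Fintype.card κ := by exact_mod_cast Fintype.card_pos
  have hL := H.Lpos
  have hv := H.vpos
  have hc := H.cpos
  have hD : 0 < 4 * L * v / (c * Fintype.card κ) := by positivity
  refine ⟨fun f hf hf1 => ?_, fun f hf hf1 => ?_, fun S hS => ?_⟩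
  · rw [var_un K H.comp H.pos f hf.continuous]
    exact H.lip f hf hf1
  · rw [var_un K H.comp H.pos f hf.continuous, int_un]
    exact nash K H.comp H.conv H.pos _ hD (fun g hg hg1 => H.lip g hg hg1) f hf hf1
  · exact half_sets K H.comp H.conv H.pos _ hD (fun g hg hg1 => H.lip g hg hg1) (un K) rfl S hS

/-- covariance form -/
theorem Bd.kls [Nonempty κ] (H : Bd K h c L v) (s : ℝ) (hs : 0 < s)
    (hvar : ∀ θ : Eu κ, ‖θ‖ = 1 →
      ProbabilityTheory.variance (fun x => ⟪x, θ⟫_ℝ) (un K) ≤ s)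
    (S : Set (Eu κ)) (hS : un K S = 1 / 2) :
    ENNReal.ofReal (1 / 1000 * Real.sqrt (c * v / L) / Real.sqrt s) * (1 / 2) ≤ bdr (un K) S := by
  have hn : (0:ℝ) < Fintype.card κ := by exact_mod_cast Fintype.card_pos
  have hL := H.Lpos
  have hv := H.vpos
  have hc := H.cpos
  have h1 := tr_lower K H.comp H.pos v hv H.vol s (fun θ hθ => by
    have := hvar θ hθ
    rwa [var_un K H.comp H.pos _ (by fun_prop)] at this)
  refine le_trans ?_ (H.gap.2.2 S hS)
  have e2 : (1 / 2 : ℝ≥0∞) = ENNReal.ofReal (1 / 2) := by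
    rw [ENNReal.ofReal_div_of_pos (by norm_num)]; simp
  rw [e2, ← ENNReal.ofReal_mul (by positivity)]
  apply ENNReal.ofReal_le_ofReal
  have hD : 0 < 4 * L * v / (c * Fintype.card κ) := by positivity
  have hDs : 4 * L * v / (c * Fintype.card κ) ≤ 32 * (s / (c * v / L)) := by
    rw [div_le_iff₀ (by positivity)] at h1 ⊢
    have e3 : 32 * (s / (c * v / L)) * (c * Fintype.card κ) = 4 * L * (s * (8 * Fintype.card κ)) / v := by
      field_simp
      ring
    rw [e3, le_div_iff₀ hv]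
    have : 4 * L * v * v = 4 * L * v ^ 2 := by ring
    rw [this]
    gcongr
  have h32 : Real.sqrt (4 * L * v / (c * Fintype.card κ)) ≤ 6 * (Real.sqrt s / Real.sqrt (c * v / L)) := by
    rw [← Real.sqrt_div hs.le]
    rw [show (6:ℝ) = Real.sqrt 36 by
      rw [show (36:ℝ) = 6 ^ 2 by norm_num, Real.sqrt_sq (by norm_num)], ← Real.sqrt_mul (by norm_num)]
    refine Real.sqrt_le_sqrt (hDs.trans ?_)
    have : 0 ≤ s / (c * v / L) := by positivity
    nlinarith
  have hsD : 0 < Real.sqrt (4 * L * v / (c * Fintype.card κ)) := Real.sqrt_pos.2 hD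
  have hss : 0 < Real.sqrt s := Real.sqrt_pos.2 hs
  have hsq : 0 < Real.sqrt (c * v / L) := Real.sqrt_pos.2 (by positivity)
  calc 1 / 1000 * Real.sqrt (c * v / L) / Real.sqrt s * (1 / 2)
      ≤ 1 / (240 * (6 * (Real.sqrt s / Real.sqrt (c * v / L)))) := by
        rw [div_mul_eq_mul_div, div_le_div_iff₀ hss (by positivity)]
        field_simp
        norm_num
    _ ≤ _ := by
        apply one_div_le_one_div_of_le (by positivity)
        gcongr

/-- halfspace form for symmetric bodies -/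
theorem half_form : ∃ c0 : ℝ, 0 < c0 ∧ ∀ (κ : Type) [Fintype κ] [Nonempty κ] (K : Set (Eu κ))
    (h : Eu κ → ℝ) (c L v : ℝ), Bd K h c L v → (interior K).Nonempty → (∀ x ∈ K, -x ∈ K) →
    ∀ t : ℝ≥0∞, (∀ (u : Eu κ) (b : ℝ), u ≠ 0 →
      t * min (un K {x | ⟪u, x⟫_ℝ ≤ b}) (1 - un K {x | ⟪u, x⟫_ℝ ≤ b}) ≤
        bdr (un K) {x | ⟪u, x⟫_ℝ ≤ b}) →
    ∀ S : Set (Eu κ), un K S = 1 / 2 →
      ENNReal.ofReal (c0 * Real.sqrt (c * v / L)) * t * (1 / 2) ≤ bdr (un K) S := by
  obtain ⟨C, hC, hhalf⟩ := half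
  refine ⟨1 / (960 * Real.sqrt C), by positivity, ?_⟩
  intro κ _ _ K h c L v H hint hsym t ht S hS
  have hn : (0:ℝ) < Fintype.card κ := by exact_mod_cast Fintype.card_pos
  have hL := H.Lpos
  have hv := H.vpos
  have hc := H.cpos
  -- a direction with large variance
  obtain ⟨θ, hθ, hvar⟩ : ∃ θ : Eu κ, ‖θ‖ = 1 ∧ v ^ 2 / (16 * Fintype.card κ) <
      EV K (fun x => ⟪θ, x⟫_ℝ ^ 2) := by
    by_contra hcon
    push Not at hcon
    have h1 := tr_lower K H.comp H.pos v hv H.vol (v ^ 2 / (16 * Fintype.card κ)) (fun θ hθ => by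
      refine le_trans ?_ (hcon θ hθ)
      unfold VV
      have e1 : (fun x : Eu κ => ⟪x, θ⟫_ℝ ^ 2) = fun x => ⟪θ, x⟫_ℝ ^ 2 := by
        funext x
        rw [real_inner_comm]
      rw [e1]
      nlinarith [sq_nonneg (EV K fun x => ⟪x, θ⟫_ℝ)])
    have h2 : v ^ 2 / (16 * Fintype.card κ) < v ^ 2 / (8 * Fintype.card κ) := by
      apply div_lt_div_of_pos_left (by positivity) (by positivity)
      linarith
    linarith
  have h1 := hhalf κ K H.comp H.conv hint hsym (un K) rfl θ t hθ (by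
    have := ht θ 0 (by rw [← norm_ne_zero_iff, hθ]; norm_num)
    exact this)
  -- t is finite
  have hE : 0 < EV K (fun x => ⟪θ, x⟫_ℝ ^ 2) := lt_trans (by positivity) hvar
  have htt : t ≠ ⊤ := by
    rintro rfl
    rw [ENNReal.top_pow (by norm_num), ENNReal.top_mul (by
      rw [Ne, ENNReal.ofReal_eq_zero, not_le]; exact hE)] at h1
    exact absurd h1 (by simp)
  obtain ⟨τ, hτ0, rfl⟩ : ∃ τ : ℝ, 0 ≤ τ ∧ t = ENNReal.ofReal τ :=
    ⟨t.toReal, ENNReal.toReal_nonneg, (ENNReal.ofReal_toReal htt).symm⟩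
  rw [← ENNReal.ofReal_pow hτ0, ← ENNReal.ofReal_mul (by positivity),
    ENNReal.ofReal_le_ofReal_iff hC.le] at h1
  have h2 : τ ^ 2 * (v ^ 2 / (16 * Fintype.card κ)) ≤ C :=
    (mul_le_mul_of_nonneg_left hvar.le (sq_nonneg _)).trans h1
  have h3 : τ ≤ 4 * Real.sqrt C * Real.sqrt (Fintype.card κ) / v := by
    refine le_of_sq_le_sq ?_ (by positivity)
    rw [div_pow, mul_pow, mul_pow, Real.sq_sqrt hC.le, Real.sq_sqrt hn.le, le_div_iff₀ (by positivity)]
    have h4 : τ ^ 2 * (v ^ 2 / (16 * Fintype.card κ)) * (16 * Fintype.card κ) ≤ C * (16 * Fintype.card κ) :=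
      mul_le_mul_of_nonneg_right h2 (by positivity)
    have e4 : τ ^ 2 * (v ^ 2 / (16 * Fintype.card κ)) * (16 * Fintype.card κ) = τ ^ 2 * v ^ 2 := by
      field_simp
    rw [e4] at h4
    linarith
  refine le_trans ?_ (H.gap.2.2 S hS)
  have e2 : (1 / 2 : ℝ≥0∞) = ENNReal.ofReal (1 / 2) := by
    rw [ENNReal.ofReal_div_of_pos (by norm_num)]; simp
  rw [e2, ← ENNReal.ofReal_mul (by positivity), ← ENNReal.ofReal_mul (by positivity)]
  apply ENNReal.ofReal_le_ofReal
  have e5 : Real.sqrt (4 * L * v / (c * Fintype.card κ)) =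
      2 * Real.sqrt (L / c) * Real.sqrt v / Real.sqrt (Fintype.card κ) := by
    have : 4 * L * v / (c * Fintype.card κ) = (2 ^ 2 * (L / c) * v) / Fintype.card κ := by
      field_simp
      ring
    rw [this, Real.sqrt_div (by positivity), Real.sqrt_mul (by positivity), Real.sqrt_mul (by positivity),
      Real.sqrt_sq (by norm_num)]
  have e6 : Real.sqrt (c * v / L) = Real.sqrt v / Real.sqrt (L / c) := by
    rw [← Real.sqrt_div hv.le]
    congr 1
    field_simp
  rw [e5, e6]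
  have s1 : 0 < Real.sqrt C := Real.sqrt_pos.2 hC
  have s2 : 0 < Real.sqrt (L / c) := Real.sqrt_pos.2 (by positivity)
  have s3 : 0 < Real.sqrt v := Real.sqrt_pos.2 hv
  have s4 : 0 < Real.sqrt (Fintype.card κ) := Real.sqrt_pos.2 hn
  have s5 : Real.sqrt v * Real.sqrt v = v := Real.mul_self_sqrt hv.le
  calc 1 / (960 * Real.sqrt C) * (Real.sqrt v / Real.sqrt (L / c)) * τ * (1 / 2)
      ≤ 1 / (960 * Real.sqrt C) * (Real.sqrt v / Real.sqrt (L / c)) *
        (4 * Real.sqrt C * Real.sqrt (Fintype.card κ) / v) * (1 / 2) := by gcongr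
    _ = 1 / (240 * (2 * Real.sqrt (L / c) * Real.sqrt v / Real.sqrt (Fintype.card κ))) := by
        field_simp
        have s6 : Real.sqrt v ^ 2 = v := Real.sq_sqrt hv.le
        nlinarith [s5, s6]

end Pool.Agent.Q188.SB
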