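import Pool.Agent.Q188.SB.Core

/-!
# Intersections of balls, sublevel sets of strongly convex functions
-/

set_option autoImplicit false

namespace Pool.Agent.Q188.SB

open MeasureTheory Set Filter Topology
open scoped ENNReal InnerProductSpace
open Pool.Agent.W695.KH

variable {κ : Type} [Fintype κ]

/-! ### intersections of balls -/

/-- centres of the balls of radius `R` which contain `K` -/
def Zc (K : Set (Eu κ)) (R : ℝ) : Set (Eu κ) := {z | ∀ y ∈ K, ‖y - z‖ ≤ R}

lemma Zc_compact (K : Set (Eu κ)) (hne : K.Nonempty) (R : ℝ) : IsCompact (Zc K R) := by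
  obtain ⟨y, hy⟩ := hne
  refine (isCompact_closedBall y R).of_isClosed_subset ?_ ?_
  · have : Zc K R = ⋂ y ∈ K, {z | ‖y - z‖ ≤ R} := by
      ext z; simp [Zc]
    rw [this]
    exact isClosed_biInter fun y _ => isClosed_le (by fun_prop) continuous_const
  · intro z hz
    rw [mem_closedBall_iff_norm, norm_sub_rev]
    exact hz y hy

/-- the defining function -/
noncomputable def hh (K : Set (Eu κ)) (R : ℝ) (x : Eu κ) : ℝ :=
  sInf ((fun z => (R ^ 2 - ‖x - z‖ ^ 2) / 2) '' Zc K R)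

lemma hh_cont (K : Set (Eu κ)) (hne : K.Nonempty) (R : ℝ) : Continuous (hh K R) := by
  refine (Zc_compact K hne R).continuous_sInf ?_
  unfold Function.HasUncurry.uncurry
  simp only [Function.hasUncurryInduction]
  fun_prop

lemma hh_spec (K : Set (Eu κ)) (hne : K.Nonempty) (R : ℝ) (hZ : (Zc K R).Nonempty) (x : Eu κ) :
    (∀ z ∈ Zc K R, hh K R x ≤ (R ^ 2 - ‖x - z‖ ^ 2) / 2) ∧
      ∃ z ∈ Zc K R, hh K R x = (R ^ 2 - ‖x - z‖ ^ 2) / 2 := by
  have hco := Zc_compact K hne R
  have hcont : ContinuousOn (fun z => (R ^ 2 - ‖x - z‖ ^ 2) / 2) (Zc K R) := by fun_prop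
  obtain ⟨z, hz, hzm⟩ := hco.exists_sInf_image_eq hZ hcont
  refine ⟨fun w hw => ?_, z, hz, hzm⟩
  exact csInf_le (hco.image_of_continuousOn hcont).bddBelow (mem_image_of_mem _ hw)

theorem bd_ball [Nonempty κ] (K : Set (Eu κ)) (hK : IsCompact K) (hc : Convex ℝ K)
    (hpos : 0 < volume K) (R : ℝ) (hR : 0 < R) (Z : Set (Eu κ))
    (hZ : K = ⋂ z ∈ Z, Metric.closedBall z R) (v : ℝ) (hv : 0 < v)
    (hvol : volume K = volume (Metric.closedBall (0 : Eu κ) v)) :
    Bd K (hh K R) 1 R v := by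
  have hne : K.Nonempty := by
    rw [nonempty_iff_ne_empty]
    intro h
    rw [h, measure_empty] at hpos
    exact lt_irrefl _ hpos
  have hZsub : Z ⊆ Zc K R := by
    intro z hz y hy
    rw [hZ, mem_iInter₂] at hy
    exact mem_closedBall_iff_norm.1 (hy z hz)
  have hZne : Z.Nonempty := by
    rw [nonempty_iff_ne_empty]
    intro h
    rw [h] at hZ
    have h1 : K = univ := by rw [hZ]; simp
    rw [h1] at hK
    have : Nontrivial (Eu κ) := inferInstance
    exact noncompact_univ (Eu κ) hK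
  have hZcne : (Zc K R).Nonempty := hZne.mono hZsub
  have hmem : ∀ x, (∀ z ∈ Zc K R, ‖x - z‖ ≤ R) → x ∈ K := by
    intro x hx
    rw [hZ, mem_iInter₂]
    intro z hz
    exact mem_closedBall_iff_norm.2 (hx z (hZsub hz))
  refine ⟨hK, hc, hpos, hh_cont K hne R, ?_, ?_, ?_, hvol, one_pos, hR, hv⟩
  · intro x hx
    obtain ⟨z, hz, hzx⟩ := (hh_spec K hne R hZcne x).2
    rw [hzx]
    have h1 := hz x hx
    have h2 := norm_nonneg (x - z)
    nlinarith
  · intro x hx y hy
    obtain ⟨z, hz, hzx⟩ := (hh_spec K hne R hZcne ((1 / 2 : ℝ) • (x + y))).2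
    have h1 := (hh_spec K hne R hZcne x).1 z hz
    have h2 := (hh_spec K hne R hZcne y).1 z hz
    rw [hzx]
    have h3 : ‖(1 / 2 : ℝ) • (x + y) - z‖ ^ 2 = (‖x - z‖ ^ 2 + ‖y - z‖ ^ 2) / 2 - ‖x - y‖ ^ 2 / 4 := by
      have e1 : (1 / 2 : ℝ) • (x + y) - z = (1 / 2 : ℝ) • ((x - z) + (y - z)) := by module
      have e2 : x - y = (x - z) - (y - z) := by abel
      have h4 := parallelogram_law_with_norm ℝ (x - z) (y - z)
      rw [e1, e2, norm_smul]
      have : ‖(1 / 2 : ℝ)‖ = 1 / 2 := by norm_num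
      rw [this]
      nlinarith [h4]
    rw [h3]
    linarith
  · intro x hx w hw
    rw [mem_closedBall_iff_norm] at hw
    refine hmem w fun z hz => ?_
    have h1 := (hh_spec K hne R hZcne x).1 z hz
    have h2 := hz x hx
    have h3 := norm_nonneg (x - z)
    have h4 : hh K R x / R ≤ R - ‖x - z‖ := by
      rw [div_le_iff₀ hR]
      nlinarith
    calc ‖w - z‖ ≤ ‖w - x‖ + ‖x - z‖ := by
          have : w - z = (w - x) + (x - z) := by abel
          rw [this]
          exact norm_add_le _ _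
      _ ≤ R := by linarith

/-! ### sublevel sets -/

/-- two-sided quadratic bounds -/
structure Cond (V : Eu κ → ℝ) (b : Eu κ → Eu κ) (c Λ : ℝ) : Prop where
  pos : 0 < c
  low : ∀ x y, V x + ⟪b x, y - x⟫_ℝ + c / 2 * ‖y - x‖ ^ 2 ≤ V y
  up : ∀ x y, V y ≤ V x + ⟪b x, y - x⟫_ℝ + Λ / 2 * ‖y - x‖ ^ 2

variable {V : Eu κ → ℝ} {b : Eu κ → Eu κ} {c Λ : ℝ}

lemma Cond.le [Nonempty κ] (H : Cond V b c Λ) : c ≤ Λ := by
  obtain ⟨y, hy⟩ := exists_ne (0 : Eu κ)
  have h1 := H.low 0 y
  have h2 := H.up 0 y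
  have h3 : 0 < ‖y - 0‖ ^ 2 := by
    have : 0 < ‖y - 0‖ := norm_pos_iff.2 (by rwa [sub_zero])
    positivity
  nlinarith

lemma Cond.cont [Nonempty κ] (H : Cond V b c Λ) : Continuous V := by
  have hle := H.le
  have hc := H.pos
  rw [continuous_iff_continuousAt]
  intro x
  rw [ContinuousAt, tendsto_iff_norm_sub_tendsto_zero]
  have h1 : Tendsto (fun y : Eu κ => ‖b x‖ * ‖y - x‖ + Λ / 2 * ‖y - x‖ ^ 2) (𝓝 x) (𝓝 0) := by
    have : Continuous fun y : Eu κ => ‖b x‖ * ‖y - x‖ + Λ / 2 * ‖y - x‖ ^ 2 := by fun_prop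
    have h := this.tendsto x
    simpa using h
  refine squeeze_zero (fun y => norm_nonneg _) (fun y => ?_) h1
  rw [Real.norm_eq_abs, abs_le]
  have h2 := H.low x y
  have h3 := H.up x y
  have h4 := abs_le.1 (abs_real_inner_le_norm (b x) (y - x))
  have h5 : 0 ≤ ‖y - x‖ ^ 2 := sq_nonneg _
  constructor <;> nlinarith

lemma Cond.convex (H : Cond V b c Λ) (r : ℝ) : Convex ℝ {x | V x ≤ r} := by
  intro x hx y hy s t hs ht hst
  have hc := H.pos
  set z := s • x + t • y with hz
  have h1 := H.low z x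
  have h2 := H.low z y
  have e : s * ⟪b z, x - z⟫_ℝ + t * ⟪b z, y - z⟫_ℝ = 0 := by
    rw [← inner_smul_right, ← inner_smul_right, ← inner_add_right]
    have : s • (x - z) + t • (y - z) = 0 := by
      rw [smul_sub, smul_sub]
      have : s • x - s • z + (t • y - t • z) = (s • x + t • y) - (s + t) • z := by module
      rw [this, hst, one_smul, hz, sub_self]
    rw [this, inner_zero_right]
  have h3 : 0 ≤ c / 2 * ‖x - z‖ ^ 2 := by positivity
  have h4 : 0 ≤ c / 2 * ‖y - z‖ ^ 2 := by positivity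
  show V z ≤ r
  have hx' : V x ≤ r := hx
  have hy' : V y ≤ r := hy
  have h5 : s * (V z + ⟪b z, x - z⟫_ℝ) ≤ s * r := mul_le_mul_of_nonneg_left (by linarith) hs
  have h6 : t * (V z + ⟪b z, y - z⟫_ℝ) ≤ t * r := mul_le_mul_of_nonneg_left (by linarith) ht
  have h7 : (s + t) * V z ≤ (s + t) * r := by linarith
  rw [hst, one_mul, one_mul] at h7
  exact h7

lemma Cond.compact [Nonempty κ] (H : Cond V b c Λ) (r : ℝ) : IsCompact {x | V x ≤ r} := by
  have hc := H.pos
  refine Metric.isCompact_of_isClosed_isBounded (isClosed_le H.cont continuous_const) ?_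
  rw [isBounded_iff_forall_norm_le]
  set B := 1 + (‖b 0‖ + |r - V 0|) * 2 / c with hB
  refine ⟨B, fun x hx => ?_⟩
  have hx' : V x ≤ r := hx
  by_contra hcon
  push Not at hcon
  have h1 := H.low 0 x
  rw [sub_zero] at h1
  have h2 := (abs_le.1 (abs_real_inner_le_norm (b 0) x)).1
  have h3 := le_abs_self (r - V 0)
  have h0 : 0 ≤ (‖b 0‖ + |r - V 0|) * 2 / c := by positivity
  have hx1 : 1 < ‖x‖ := by linarith
  have h4 : c / 2 * ‖x‖ ^ 2 ≤ ‖b 0‖ * ‖x‖ + |r - V 0| * ‖x‖ := by
    have : |r - V 0| ≤ |r - V 0| * ‖x‖ := le_mul_of_one_le_right (abs_nonneg _) hx1.le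
    linarith
  have h5 : c / 2 * ‖x‖ ≤ ‖b 0‖ + |r - V 0| := by
    have h6 : (c / 2 * ‖x‖) * ‖x‖ ≤ (‖b 0‖ + |r - V 0|) * ‖x‖ := by nlinarith
    exact le_of_mul_le_mul_right h6 (by linarith)
  have h6 : ‖x‖ ≤ (‖b 0‖ + |r - V 0|) * 2 / c := by
    rw [le_div_iff₀ hc]
    linarith
  linarith

/-- monotonicity of the volume of balls -/
lemma ball_le [Nonempty κ] (x y : Eu κ) (a d : ℝ) (ha : 0 ≤ a) (hd : 0 ≤ d)
    (h : volume (Metric.closedBall x a) ≤ volume (Metric.closedBall y d)) : a ≤ d := by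
  by_contra hcon
  push Not at hcon
  rw [Measure.addHaar_closedBall _ _ ha, Measure.addHaar_closedBall _ _ hd] at h
  have h0 : volume (Metric.ball (0 : Eu κ) 1) ≠ 0 := (Metric.measure_ball_pos volume _ one_pos).ne'
  have ht : volume (Metric.ball (0 : Eu κ) 1) ≠ ⊤ := measure_ball_lt_top.ne
  rw [ENNReal.mul_le_mul_iff_left h0 ht, ENNReal.ofReal_le_ofReal_iff (by positivity)] at h
  have hfr : Module.finrank ℝ (Eu κ) = Fintype.card κ := by simp
  rw [hfr] at h
  have h1 := pow_lt_pow_left₀ hcon hd (Fintype.card_ne_zero (α := κ))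
  linarith

theorem bd_level [Nonempty κ] (H : Cond V b c Λ) (hpos : 0 < volume {x | V x ≤ 0}) (v : ℝ)
    (hv : 0 < v) (hvol : volume {x | V x ≤ 0} = volume (Metric.closedBall (0 : Eu κ) v)) :
    Bd {x | V x ≤ 0} (fun x => -V x) c (Λ * v) v := by
  have hc := H.pos
  have hle := H.le
  have hΛ : 0 < Λ := hc.trans_le hle
  have hK := H.compact 0
  have hcont := H.cont
  set K := {x : Eu κ | V x ≤ 0} with hKdef
  have hne : K.Nonempty := by
    rw [nonempty_iff_ne_empty]
    intro h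
    rw [h, measure_empty] at hpos
    exact lt_irrefl _ hpos
  obtain ⟨x0, hx0, hmin⟩ := hK.exists_isMinOn hne hcont.continuousOn
  have hx0' : V x0 ≤ 0 := hx0
  have hglob : ∀ y, V x0 ≤ V y := by
    intro y
    by_cases hy : y ∈ K
    · exact hmin hy
    · have : ¬ V y ≤ 0 := hy
      linarith
  have hgrad : ∀ x, ‖b x‖ ^ 2 ≤ 2 * Λ * (V x - V x0) := by
    intro x
    have h1 := H.up x (x - Λ⁻¹ • b x)
    have h2 := hglob (x - Λ⁻¹ • b x)
    have e1 : x - Λ⁻¹ • b x - x = -(Λ⁻¹ • b x) := by abel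
    rw [e1, inner_neg_right, inner_smul_right, real_inner_self_eq_norm_sq, norm_neg, norm_smul,
      Real.norm_of_nonneg (by positivity)] at h1
    have e2 : V x + -(Λ⁻¹ * ‖b x‖ ^ 2) + Λ / 2 * (Λ⁻¹ * ‖b x‖) ^ 2 = V x - ‖b x‖ ^ 2 / (2 * Λ) := by
      field_simp
      ring
    rw [e2] at h1
    have h3 : ‖b x‖ ^ 2 / (2 * Λ) ≤ V x - V x0 := by linarith
    rw [div_le_iff₀ (by positivity)] at h3
    linarith
  have hb0 : b x0 = 0 := by
    have h1 := hgrad x0
    rw [sub_self, mul_zero] at h1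
    have h2 : ‖b x0‖ ^ 2 = 0 := le_antisymm h1 (sq_nonneg _)
    exact norm_eq_zero.1 (pow_eq_zero_iff (by norm_num) |>.1 h2)
  set ρ := Real.sqrt (-2 * V x0 / Λ) with hρ
  have hρ0 : 0 ≤ -2 * V x0 / Λ := div_nonneg (by linarith) hΛ.le
  have hρ2 : ρ ^ 2 = -2 * V x0 / Λ := Real.sq_sqrt hρ0
  have hsub : Metric.closedBall x0 ρ ⊆ K := by
    intro y hy
    rw [mem_closedBall_iff_norm] at hy
    have h1 := H.up x0 y
    rw [hb0, inner_zero_left, add_zero] at h1
    have h2 : ‖y - x0‖ ^ 2 ≤ ρ ^ 2 := pow_le_pow_left₀ (norm_nonneg _) hy 2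
    rw [hρ2] at h2
    show V y ≤ 0
    have h3 : Λ / 2 * ‖y - x0‖ ^ 2 ≤ Λ / 2 * (-2 * V x0 / Λ) :=
      mul_le_mul_of_nonneg_left h2 (by positivity)
    have h4 : Λ / 2 * (-2 * V x0 / Λ) = - V x0 := by
      field_simp
    linarith
  have hρv : ρ ≤ v := by
    refine ball_le x0 0 ρ v (Real.sqrt_nonneg _) hv.le ?_
    rw [← hvol]
    exact measure_mono hsub
  have hbd : ∀ x ∈ K, ‖b x‖ ≤ Λ * v := by
    intro x hx
    have hx' : V x ≤ 0 := hx
    have h1 := hgrad x
    have h2 : ‖b x‖ ^ 2 ≤ (Λ * ρ) ^ 2 := by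
      rw [mul_pow, hρ2]
      have : Λ ^ 2 * (-2 * V x0 / Λ) = 2 * Λ * (0 - V x0) := by
        field_simp
        ring
      rw [this]
      have : 2 * Λ * (V x - V x0) ≤ 2 * Λ * (0 - V x0) := by gcongr
      linarith
    have h3 : ‖b x‖ ≤ Λ * ρ := by
      refine le_of_sq_le_sq h2 ?_
      have := Real.sqrt_nonneg (-2 * V x0 / Λ)
      positivity
    calc ‖b x‖ ≤ Λ * ρ := h3
      _ ≤ Λ * v := by gcongr
  refine ⟨hK, H.convex 0, hpos, hcont.neg, ?_, ?_, ?_, hvol, hc, by positivity, hv⟩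
  · intro x hx
    have : V x ≤ 0 := hx
    linarith
  · intro x _ y _
    set z := (1 / 2 : ℝ) • (x + y) with hz
    have h1 := H.low z x
    have h2 := H.low z y
    have e1 : x - z = (1 / 2 : ℝ) • (x - y) := by rw [hz]; module
    have e2 : y - z = -((1 / 2 : ℝ) • (x - y)) := by rw [hz]; module
    rw [e1] at h1
    rw [e2, inner_neg_right, norm_neg] at h2
    rw [norm_smul] at h1 h2
    have : ‖(1 / 2 : ℝ)‖ = 1 / 2 := by norm_num
    rw [this] at h1 h2
    nlinarith
  · intro x hx w hw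
    have hx' : V x ≤ 0 := hx
    rw [mem_closedBall_iff_norm] at hw
    show V w ≤ 0
    by_contra hcon
    push Not at hcon
    have hL : 0 < Λ * v := by positivity
    -- intermediate value
    have hφ : ContinuousOn (fun t : ℝ => V (x + t • (w - x))) (Icc 0 1) := by fun_prop
    have hivt := intermediate_value_Icc (zero_le_one (α := ℝ)) hφ
    have e0 : V (x + (0:ℝ) • (w - x)) = V x := by rw [zero_smul, add_zero]
    have e1 : V (x + (1:ℝ) • (w - x)) = V w := by rw [one_smul, add_sub_cancel]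
    rw [e0, e1] at hivt
    obtain ⟨t, ⟨ht0, ht1⟩, ht⟩ := hivt ⟨hx', hcon.le⟩
    set y := x + t • (w - x) with hy
    replace ht : V y = 0 := ht
    have hyK : y ∈ K := le_of_eq ht
    have h1 := H.low y x
    have h2 := hbd y hyK
    have e2 : x - y = -(t • (w - x)) := by rw [hy]; abel
    rw [ht, e2, inner_neg_right, inner_smul_right, norm_neg, norm_smul, Real.norm_of_nonneg ht0] at h1
    have h3 : ⟪b y, w - x⟫_ℝ ≤ Λ * v * ‖w - x‖ :=
      (real_inner_le_norm _ _).trans (mul_le_mul_of_nonneg_right h2 (norm_nonneg _))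
    have h4 : Λ * v * ‖w - x‖ ≤ -V x := by
      rw [le_div_iff₀ hL] at hw
      linarith
    have h5 : t * ⟪b y, w - x⟫_ℝ ≤ t * (-V x) := mul_le_mul_of_nonneg_left (h3.trans h4) ht0
    have h6 : 0 ≤ (1 - t) * (-V x) := mul_nonneg (by linarith) (by linarith)
    have h7 : c / 2 * (t * ‖w - x‖) ^ 2 ≤ 0 := by nlinarith
    have h8 : (t * ‖w - x‖) ^ 2 ≤ 0 := by
      by_contra h9
      push Not at h9
      have : 0 < c / 2 * (t * ‖w - x‖) ^ 2 := by positivity
      linarith
    have h9 : t * ‖w - x‖ = 0 := pow_eq_zero_iff (by norm_num) |>.1 (le_antisymm h8 (sq_nonneg _))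
    have h10 : y = x := by
      rw [hy]
      have : t • (w - x) = 0 := by
        rw [← norm_eq_zero, norm_smul, Real.norm_of_nonneg ht0]
        exact h9
      rw [this, add_zero]
    rw [h10] at ht
    rw [ht, neg_zero] at h4
    have h11 : ‖w - x‖ = 0 := by
      have := norm_nonneg (w - x)
      nlinarith
    have h12 : w = x := sub_eq_zero.1 (norm_eq_zero.1 h11)
    rw [h12, ht] at hcon
    exact lt_irrefl _ hcon

/-! ### the trace of the covariance matrix -/

theorem tr_lower [Nonempty κ] (K : Set (Eu κ)) (hK : IsCompact K) (hpos : 0 < volume K) (v : ℝ)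
    (hv : 0 < v) (hvol : volume K = volume (Metric.closedBall (0 : Eu κ) v)) (s : ℝ)
    (hs : ∀ θ : Eu κ, ‖θ‖ = 1 → VV K (fun x => ⟪x, θ⟫_ℝ) ≤ s) :
    v ^ 2 / (8 * Fintype.card κ) ≤ s := by
  classical
  have hfin : volume K ≠ ⊤ := hK.measure_lt_top.ne
  have hV : 0 < (volume K).toReal := ENNReal.toReal_pos hpos.ne' hfin
  have hn : (0:ℝ) < Fintype.card κ := by exact_mod_cast Fintype.card_pos
  set m : Eu κ := WithLp.toLp 2 fun i => EV K (fun x => x i) with hm
  have hint : ∀ g : Eu κ → ℝ, Continuous g → IntegrableOn g K := fun g hg =>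
    hg.continuousOn.integrableOn_compact hK
  -- variances of the coordinates
  have h1 : ∀ i, EV K (fun x => (x i - m i) ^ 2) ≤ s := by
    intro i
    have h2 := hs (EuclideanSpace.single i 1) (by simp)
    have e1 : (fun x : Eu κ => ⟪x, EuclideanSpace.single i (1:ℝ)⟫_ℝ) = fun x => x i := by
      funext x
      simp [EuclideanSpace.inner_single_right]
    rw [e1] at h2
    have i1 := hint (fun x => x i ^ 2) (by fun_prop)
    have i2 := hint (fun x => x i) (by fun_prop)
    have e2 : EV K (fun x => (x i - m i) ^ 2) = VV K (fun x => x i) := by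
      have hmi : m i = EV K (fun x => x i) := rfl
      unfold VV EV
      have : (fun x : Eu κ => (x i - m i) ^ 2) = fun x => (x i ^ 2 - 2 * m i * x i) + m i ^ 2 := by
        funext x; ring
      have i3 : IntegrableOn (fun x : Eu κ => 2 * m i * x i) K := i2.const_mul _
      have i4 : IntegrableOn (fun _ : Eu κ => m i ^ 2) K := hint _ continuous_const
      have i5 : IntegrableOn (fun x : Eu κ => x i ^ 2 - 2 * m i * x i) K := i1.sub i3
      rw [this, integral_add i5 i4, integral_sub i1 i3, integral_const_mul, setIntegral_const,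
        smul_eq_mul, Measure.real]
      unfold EV at hmi
      rw [hmi]
      field_simp
      ring
    rw [e2]
    exact h2
  have h2 : EV K (fun x => ‖x - m‖ ^ 2) ≤ Fintype.card κ * s := by
    have e1 : EV K (fun x => ‖x - m‖ ^ 2) = ∑ i, EV K (fun x => (x i - m i) ^ 2) := by
      unfold EV
      rw [← Finset.sum_div, ← integral_finsetSum _ fun i _ => hint (fun x => (x i - m i) ^ 2) (by fun_prop)]
      congr 1
      refine integral_congr_ae (Eventually.of_forall fun x => ?_)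
      show ‖x - m‖ ^ 2 = ∑ i, (x i - m i) ^ 2
      rw [EuclideanSpace.norm_sq_eq]
      refine Finset.sum_congr rfl fun i _ => ?_
      rw [Real.norm_eq_abs, sq_abs]
      rfl
    rw [e1]
    calc ∑ i, EV K (fun x => (x i - m i) ^ 2) ≤ ∑ _i : κ, s := Finset.sum_le_sum fun i _ => h1 i
      _ = _ := by simp
  have h3 : v ^ 2 / 8 ≤ EV K (fun x => ‖x - m‖ ^ 2) := by
    unfold EV
    rw [le_div_iff₀ hV]
    set B := Metric.closedBall m (v / 2) with hB
    have hBv : (volume B).toReal ≤ (volume K).toReal / 2 := by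
      rw [hB, Measure.addHaar_closedBall _ _ (by positivity), hvol,
        Measure.addHaar_closedBall _ _ hv.le, ENNReal.toReal_mul, ENNReal.toReal_mul,
        ENNReal.toReal_ofReal (by positivity), ENNReal.toReal_ofReal (by positivity)]
      have hfr : Module.finrank ℝ (Eu κ) = Fintype.card κ := by simp
      rw [hfr]
      have h5 : (v / 2) ^ Fintype.card κ ≤ v ^ Fintype.card κ / 2 := by
        rw [div_pow]
        gcongr
        calc (2:ℝ) = 2 ^ 1 := by norm_num
          _ ≤ 2 ^ Fintype.card κ := pow_le_pow_right₀ (by norm_num) Fintype.card_pos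
      have h6 : 0 ≤ (volume (Metric.ball (0 : Eu κ) 1)).toReal := ENNReal.toReal_nonneg
      nlinarith
    have hKB : (volume K).toReal / 2 ≤ (volume (K \ B)).toReal := by
      have h5 : volume K ≤ volume (K \ B) + volume B := by
        calc volume K ≤ volume ((K \ B) ∪ B) := measure_mono (by
              intro x hx
              by_cases hxB : x ∈ B
              · exact Or.inr hxB
              · exact Or.inl ⟨hx, hxB⟩)
          _ ≤ _ := measure_union_le _ _
      have hBfin : volume B ≠ ⊤ := measure_closedBall_lt_top.ne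
      have hKBfin : volume (K \ B) ≠ ⊤ := ne_top_of_le_ne_top hfin (measure_mono sdiff_subset)
      have h6 := ENNReal.toReal_mono (ENNReal.add_ne_top.2 ⟨hKBfin, hBfin⟩) h5
      rw [ENNReal.toReal_add hKBfin hBfin] at h6
      linarith
    have hKBm : MeasurableSet (K \ B) := hK.measurableSet.diff Metric.isClosed_closedBall.measurableSet
    have hcn : Continuous fun x : Eu κ => ‖x - m‖ ^ 2 := by fun_prop
    have h4 : v ^ 2 / 4 * (volume (K \ B)).toReal ≤ ∫ x in K \ B, ‖x - m‖ ^ 2 := by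
      have := setIntegral_mono_on (μ := volume) (s := K \ B) (f := fun _ => v ^ 2 / 4)
        (g := fun x => ‖x - m‖ ^ 2) ((hint _ continuous_const).mono_set sdiff_subset)
        ((hint _ hcn).mono_set sdiff_subset) hKBm (fun x hx => by
          have h7 : ¬ ‖x - m‖ ≤ v / 2 := fun h => hx.2 (mem_closedBall_iff_norm.2 h)
          push Not at h7
          nlinarith)
      rw [setIntegral_const, smul_eq_mul, mul_comm] at this
      exact this
    have h5 : ∫ x in K \ B, ‖x - m‖ ^ 2 ≤ ∫ x in K, ‖x - m‖ ^ 2 :=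
      setIntegral_mono_set (hint _ hcn) (Eventually.of_forall fun x => sq_nonneg _)
        (Eventually.of_forall sdiff_subset)
    have : v ^ 2 / 4 * ((volume K).toReal / 2) ≤ v ^ 2 / 4 * (volume (K \ B)).toReal := by gcongr
    nlinarith
  rw [div_le_iff₀ (by positivity)]
  nlinarith

end Pool.Agent.Q188.SB
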