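import Pool.Agent.Q188.SB.Fin
import Pool.Agent.Q86.EM.Chp
import Pool.Agent.Q251.EM.Pch

/-!
# The Poincare inequality and Q1 for all sets, for strongly convex bodies
-/

set_option autoImplicit false

namespace Pool.Agent.Q188.SB

open MeasureTheory Set Filter Topology
open scoped ENNReal InnerProductSpace ContDiff
open Pool.Agent.W695.KH
open Pool.Agent.Q86.EM (CB CV PI KLSc KLSh)

/-- `Q251.EM.Pch.pch` for all constants `k > 0` -/
theorem pch_pos {κ : Type} [Fintype κ] (D : Set (EuclideanSpace ℝ κ)) (hD : CB D) (k : ℝ)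
    (hk0 : 0 < k) (hK : KLSc D k) : KLSh D (42 * Real.sqrt k) := by
  intro t H A hA
  have hpos : 0 < volume D :=
    lt_of_lt_of_le (isOpen_interior.measure_pos volume hD.int) (measure_mono interior_subset)
  have hp := un_prob D hD.cpt hpos
  set X := un D A with hX
  set B := bdr (un D) A with hBd
  have hX1 : X ≤ 1 := prob_le_one
  have hsk : 0 < Real.sqrt k := Real.sqrt_pos.2 hk0
  have key : ∀ τ : ℝ, 0 < τ → ENNReal.ofReal τ ≤ t →
      ENNReal.ofReal τ * min X (1 - X) ≤ ENNReal.ofReal (42 * Real.sqrt k) * B := by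
    intro τ hτ hτt
    have hcv : CV D (8 / τ ^ 2) := Q251.EM.Pch.cv hD hτ hpos
      (fun u r hu => (mul_le_mul' hτt le_rfl).trans (H u r hu))
    have hPI := hK _ hcv
    have h1 : X * (1 - X) ≤ ENNReal.ofReal (7 * Real.sqrt (k * (8 / τ ^ 2))) * B :=
      Q237.OP.Che.che κ D hD.cpt hD.cvx hpos (k * (8 / τ ^ 2)) (by positivity)
        (fun f hf _ => hPI f hf) (un D) rfl A hA
    have e1 : 7 * Real.sqrt (k * (8 / τ ^ 2)) ≤ 21 * Real.sqrt k / τ := by
      rw [Real.sqrt_mul hk0.le, Real.sqrt_div (by norm_num), Real.sqrt_sq hτ.le, mul_div_assoc',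
        mul_div_assoc']
      apply div_le_div_of_nonneg_right _ hτ.le
      have e2 : Real.sqrt 8 ≤ 3 := by
        rw [Real.sqrt_le_left (by norm_num)]
        norm_num
      nlinarith
    calc ENNReal.ofReal τ * min X (1 - X)
        ≤ ENNReal.ofReal τ * (2 * (X * (1 - X))) :=
          mul_le_mul_right (Q289.OP.min_le_two_mul hX1) _
      _ ≤ ENNReal.ofReal τ * (2 * (ENNReal.ofReal (21 * Real.sqrt k / τ) * B)) := by
          refine mul_le_mul_right (mul_le_mul_right (h1.trans ?_) _) _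
          exact mul_le_mul_left (ENNReal.ofReal_le_ofReal e1) _
      _ = (ENNReal.ofReal τ * (2 * ENNReal.ofReal (21 * Real.sqrt k / τ))) * B := by
          ring
      _ = ENNReal.ofReal (42 * Real.sqrt k) * B := by
          rw [show (2 : ℝ≥0∞) = ENNReal.ofReal 2 by norm_num, ← ENNReal.ofReal_mul (by norm_num),
            ← ENNReal.ofReal_mul hτ.le]
          have : τ * (2 * (21 * Real.sqrt k / τ)) = 42 * Real.sqrt k := by field_simp; norm_num
          rw [this]
  have hC0 : 0 < 42 * Real.sqrt k := by positivity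
  by_cases htt : t = ⊤
  · subst htt
    by_cases hm : min X (1 - X) = 0
    · rw [hm, mul_zero]
      exact bot_le
    have hmt : min X (1 - X) ≠ ⊤ :=
      ne_top_of_le_ne_top ENNReal.one_ne_top ((min_le_left _ _).trans hX1)
    have hm0 : 0 < (min X (1 - X)).toReal := ENNReal.toReal_pos hm hmt
    have h2 : ENNReal.ofReal (42 * Real.sqrt k) * B = ⊤ := by
      refine ENNReal.eq_top_of_forall_nnreal_le fun r => ?_
      have h3 := key ((r + 1) / (min X (1 - X)).toReal) (by positivity) le_top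
      rw [← ENNReal.ofReal_toReal hmt, ← ENNReal.ofReal_mul (by positivity),
        ENNReal.toReal_ofReal hm0.le] at h3
      refine le_trans ?_ h3
      rw [← ENNReal.ofReal_coe_nnreal]
      refine ENNReal.ofReal_le_ofReal ?_
      have : ((r : ℝ) + 1) / (min X (1 - X)).toReal * (min X (1 - X)).toReal = r + 1 := by
        field_simp
      rw [this]
      linarith
    rw [h2]
    exact le_top
  · by_cases h0 : t = 0
    · rw [h0, zero_mul]
      exact bot_le
    · have h4 := key t.toReal (ENNReal.toReal_pos h0 htt) (ENNReal.ofReal_toReal htt).le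
      rwa [ENNReal.ofReal_toReal htt] at h4

/-- square roots of multiples -/
lemma sqrt_mul_le {C x : ℝ} (hC : 1 ≤ C) : Real.sqrt (C * x) ≤ C * Real.sqrt x := by
  rw [Real.sqrt_mul (by linarith)]
  refine mul_le_mul_of_nonneg_right ?_ (Real.sqrt_nonneg _)
  rw [Real.sqrt_le_left (by linarith)]
  nlinarith

/-- **all forms**: `D = 4 L v / (c n)` and `k = L / (c v)` -/
theorem full : ∃ C : ℝ, 1 ≤ C ∧ ∀ (κ : Type) [Fintype κ] [Nonempty κ] (K : Set (Eu κ))
    (h : Eu κ → ℝ) (c L v : ℝ), Bd K h c L v → (interior K).Nonempty →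
    (∀ f : Eu κ → ℝ, ContDiff ℝ 1 f → (∀ x, ‖fderiv ℝ f x‖ ≤ 1) →
      ProbabilityTheory.variance f (un K) ≤ 4 * L * v / (c * Fintype.card κ)) ∧
    (∀ f : Eu κ → ℝ, ContDiff ℝ 1 f →
      ProbabilityTheory.variance f (un K) ≤
        C * (4 * L * v / (c * Fintype.card κ)) * ∫ x, ‖fderiv ℝ f x‖ ^ 2 ∂(un K)) ∧
    (∀ A : Set (Eu κ), MeasurableSet A → un K A * (1 - un K A) ≤
      ENNReal.ofReal (C * Real.sqrt (4 * L * v / (c * Fintype.card κ))) * bdr (un K) A) ∧
    (∀ s : ℝ, 0 < s → (∀ θ : Eu κ, ‖θ‖ = 1 →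
        ProbabilityTheory.variance (fun x => ⟪x, θ⟫_ℝ) (un K) ≤ s) →
      ∀ A : Set (Eu κ), MeasurableSet A → un K A * (1 - un K A) ≤
        ENNReal.ofReal (C * Real.sqrt (L / (c * v)) * Real.sqrt s) * bdr (un K) A) ∧
    KLSh K (C * Real.sqrt (L / (c * v))) := by
  obtain ⟨C₁, hC₁, HEM⟩ := Pool.Agent.Q86.EM.body_em
  refine ⟨42 * (32 * C₁), by linarith, ?_⟩
  intro κ _ _ K h c L v H hint
  have hn : (0:ℝ) < Fintype.card κ := by exact_mod_cast Fintype.card_pos
  have hL := H.Lpos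
  have hv := H.vpos
  have hc := H.cpos
  have hCB : CB K := ⟨H.comp, H.conv, hint⟩
  have hCp : 0 < C₁ := by linarith
  obtain ⟨D, hDd⟩ : ∃ D : ℝ, D = 4 * L * v / (c * Fintype.card κ) := ⟨_, rfl⟩
  have hD : 0 < D := by
    rw [hDd]
    positivity
  obtain ⟨q, hqd⟩ : ∃ q : ℝ, q = L / (c * v) := ⟨_, rfl⟩
  have hq : 0 < q := by
    rw [hqd]
    positivity
  have hlip : ∀ f : Eu κ → ℝ, ContDiff ℝ 1 f → (∀ x, ‖fderiv ℝ f x‖ ≤ 1) → VV K f ≤ D := by
    intro f hf hf1
    rw [hDd]
    exact H.lip f hf hf1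
  have hPI : PI K (C₁ * D) := HEM κ K hCB D hlip
  -- comparison with the variances of the marginals
  have hDs : ∀ s : ℝ, (∀ θ : Eu κ, ‖θ‖ = 1 → VV K (fun x => ⟪x, θ⟫_ℝ) ≤ s) → D ≤ 32 * q * s := by
    intro s hs
    have h1 := tr_lower K H.comp H.pos v hv H.vol s hs
    rw [div_le_iff₀ (by positivity)] at h1
    rw [hDd, hqd, div_le_iff₀ (by positivity)]
    have e3 : 32 * (L / (c * v)) * s * (c * Fintype.card κ) =
        4 * L * (s * (8 * Fintype.card κ)) / v := by
      field_simp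
      ring
    rw [e3, le_div_iff₀ hv]
    have : 4 * L * v * v = 4 * L * v ^ 2 := by ring
    rw [this]
    gcongr
  have hche : ∀ P : ℝ, 0 < P → PI K P → ∀ A : Set (Eu κ), MeasurableSet A →
      un K A * (1 - un K A) ≤ ENNReal.ofReal (7 * Real.sqrt P) * bdr (un K) A := by
    intro P hP hPI A hA
    exact Q237.OP.Che.che κ K H.comp H.conv H.pos P hP (fun f hf _ => hPI f hf) (un K) rfl A hA
  have hPImono : ∀ {P P' : ℝ}, P ≤ P' → PI K P → PI K P' := by
    intro P P' hPP hPI f hf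
    refine (hPI f hf).trans (mul_le_mul_of_nonneg_right hPP ?_)
    exact Pool.Agent.Q162.EM.EV_nn K _ fun x => sq_nonneg _
  rw [← hDd, ← hqd]
  refine ⟨?_, ?_, ?_, ?_, ?_⟩
  · intro f hf hf1
    rw [var_un K H.comp H.pos f hf.continuous]
    exact hlip f hf hf1
  · intro f hf
    rw [var_un K H.comp H.pos f hf.continuous, int_un]
    refine (hPImono ?_ hPI) f hf
    refine mul_le_mul_of_nonneg_right ?_ hD.le
    linarith
  · intro A hA
    refine (hche _ (by positivity) hPI A hA).trans (mul_le_mul_left (ENNReal.ofReal_le_ofReal ?_) _)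
    have h1 : Real.sqrt (C₁ * D) ≤ C₁ * Real.sqrt D := sqrt_mul_le hC₁
    have h2 : 0 ≤ C₁ * Real.sqrt D := by positivity
    nlinarith
  · intro s hs hvar A hA
    have h1 : D ≤ 32 * q * s := hDs s fun θ hθ => by
      have := hvar θ hθ
      rwa [var_un K H.comp H.pos _ (by fun_prop)] at this
    have h2 : PI K (32 * C₁ * (q * s)) := by
      refine hPImono ?_ hPI
      calc C₁ * D ≤ C₁ * (32 * q * s) := mul_le_mul_of_nonneg_left h1 hCp.le
        _ = 32 * C₁ * (q * s) := by ring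
    refine (hche _ (by positivity) h2 A hA).trans (mul_le_mul_left (ENNReal.ofReal_le_ofReal ?_) _)
    have h3 : Real.sqrt (32 * C₁ * (q * s)) ≤ 32 * C₁ * Real.sqrt (q * s) :=
      sqrt_mul_le (by linarith)
    rw [Real.sqrt_mul hq.le] at h3
    have h4 : 0 ≤ 32 * C₁ * (Real.sqrt q * Real.sqrt s) := by positivity
    nlinarith
  · have hkc : KLSc K (32 * C₁ * q) := by
      intro s hs
      refine hPImono ?_ hPI
      have h1 : D ≤ 32 * q * s := hDs s fun θ hθ => by
        have h2 := hs θ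
        rw [hθ, one_pow, mul_one] at h2
        have e1 : (fun x : Eu κ => ⟪x, θ⟫_ℝ) = fun x => ⟪θ, x⟫_ℝ := by
          funext x
          rw [real_inner_comm]
        rw [e1]
        exact h2
      calc C₁ * D ≤ C₁ * (32 * q * s) := mul_le_mul_of_nonneg_left h1 hCp.le
        _ = 32 * C₁ * q * s := by ring
    have h3 := pch_pos K hCB (32 * C₁ * q) (by positivity) hkc
    intro t ht A hA
    refine (h3 t ht A hA).trans (mul_le_mul_left (ENNReal.ofReal_le_ofReal ?_) _)
    have h4 : Real.sqrt (32 * C₁ * q) ≤ 32 * C₁ * Real.sqrt q := sqrt_mul_le (by linarith)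
    linarith

end Pool.Agent.Q188.SB
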